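import Pool.Agent.K6.H54.CY.Final

/-!
# Zero-cycles on Calabi–Yau varieties: equivalent rational points are dense near a rational point

`K` is a number field, `n ≥ 2`, and `F` is a form over `K` of multidegree `(4, …, 4)` such that the
divisor `F = 0` in `(ℙ¹)ⁿ` is smooth. For `e ∈ Kˣ` the double cover `X_e : w² = e F(x)` of `(ℙ¹)ⁿ` is a
Calabi–Yau variety of dimension `n` (a K3 surface for `n = 2`); let `ι` be its involution `w ↦ -w`. Its
Albanese variety is zero, `H^(2n-1)(X_e) = 0`, so that the injectivity of the Abel–Jacobi map `AJⁿ` says
that all rational points of `X_e` are rationally equivalent up to torsion. For a `K`-point `Q` of the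
affine part of `X_e` the cycle `[Q] + [ι Q]` is a fibre of `X_e → (ℙ¹)ⁿ`, and its class does not depend on
`Q`. We call `Q` *central* if a positive multiple of `[Q] - [ι Q]` is rationally equivalent to zero over
the algebraic closure.

**Theorem.**
1. A positive multiple of the difference of two central points is rationally equivalent to zero over the
   algebraic closure (so by Roitman's theorem the points are rationally equivalent there).
2. There are a finite set `T` of points of `(ℙ¹)ⁿ` and a proper closed subset `h = 0` such that for all
   `e` and all rational points `P` of `X_e`, `w ≠ 0`, which do not lie over them: the rational points `Q`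
   such that `[Q] - [ι Q]` is an odd multiple of `[P] - [ι P]` in the Chow group of zero-cycles over `K`
   are dense near `P`, in the product of the sets of the `K_v`-points, for all finite nonempty sets of
   `p`-adic places `v` of degree one over different primes `p`, with or without a real place. If `P` is
   central, then all these `Q` are central.
3. If a line in the direction of one of the coordinates through the image of a rational point `P` in
   `(ℙ¹)ⁿ` is tangent to the divisor `F = 0` (so that the curve in `X_e` over it is singular, hence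
   rational), then `P` is central.
4. There are a finite extension `K'` of `K` and a central `K'`-point `P` of `X_1` (in one of the charts of
   `(ℙ¹)ⁿ`) such that for **all** finite extensions `L` of `K'` and all finite sets of places of `L` as in
   (2) the central `L`-points are dense near `P`.

So on each of these Calabi–Yau varieties the rational points over a number field in one and the same
class are dense in a nonempty open subset of the product of the sets of local points.

Zero-cycles are formal sums of points of the affine part `w² = f(x)`. The cycles in `Rat` are rationally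
equivalent to zero on `X_e`; they are generated by the divisors of the functions `(u + v w) / (u - v w)` on
the curves in the directions of the coordinates, the differences of two points on the image of a line
`t ↦ (c(t), b(t))`, and the differences of two fibres of the projection `(x, w) ↦ x`.

Idea of the proof. (2) On the curve of genus one in the direction `i` through a rational point `P` we move
to the points `Q` which are linearly equivalent to `P + m (P - ι P)`, so that `Q - ι Q` is linearly
equivalent to `(2 m + 1) (P - ι P)`; such moves in all directions lead to a dense set of points near `P` if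
`P` is not torsion in one direction and this direction is not special for the others. That the general
line has these properties is shown with the prime factors of `F` (`F` is squarefree and is not a product
of two factors which do not involve the `i`-th and the `j`-th coordinates, by smoothness). (4) By
differentiation with respect to the coordinates `x_3, …, x_n` on the algebraic closure of
`K(x_3, …, x_n)` the divisor meets the general surface `ℙ¹ × ℙ¹ × {(x_3, …, x_n)}` in a smooth curve; a line
tangent to this curve is specialised to a line over a finite extension, over which there are infinitely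
many rational points, almost all of infinite order in the other direction.

The theorem for `n = 2` is `MP_9207e0_ag.EquivalentPointsDense` (starting library); its lemmas on zero-cycles
and on points which are torsion in all directions (`Pool.Agent.Q35.ZC`, `Pool.Agent.Q35.TT`, any `n`) are
used here.
-/

set_option autoImplicit false

namespace Pool.Agent.Results.MP_a1cc03_ag.CalabiYauDoubleCovers

open MvPolynomial

section varieties

variable {n : ℕ}

/-- `F` is a form of multidegree `(4, …, 4)`: of degree `4` in each pair of variables `(j, 0)`, `(j, 1)`,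
the coordinates of the `j`-th factor of `(ℙ¹)ⁿ`. -/
def IsForm {K : Type} [Field K] (F : MvPolynomial (Fin n × Fin 2) K) : Prop :=
  ∀ m ∈ F.support, ∀ j, m (j, 0) + m (j, 1) = 4

/-- The divisor `F = 0` in `(ℙ¹)ⁿ` is smooth. -/
def Smooth {K : Type} [Field K] (F : MvPolynomial (Fin n × Fin 2) K) : Prop :=
  ∀ x : Fin n × Fin 2 → AlgebraicClosure K, (∀ j, ∃ b, x (j, b) ≠ 0) → ∃ p, aeval x (pderiv p F) ≠ 0

/-- The polynomial of `F` in the chart of `(ℙ¹)ⁿ` where the coordinates `(j, ε j)` are `1`. -/
noncomputable def chart {K : Type} [Field K] (F : MvPolynomial (Fin n × Fin 2) K)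
    (ε : Fin n → Fin 2) : MvPolynomial (Fin n) K :=
  aeval (fun p : Fin n × Fin 2 => if p.2 = ε p.1 then 1 else X p.1) F

/-- The polynomial `F(1, z_1; …; 1, z_n)`. -/
noncomputable def affine {K : Type} [Field K] (F : MvPolynomial (Fin n × Fin 2) K) :
    MvPolynomial (Fin n) K :=
  chart F fun _ => 0

/-- The point `(z, w)` lies on the double cover `w² = f(z)`. -/
def OnCover {F : Type} [Field F] (f : MvPolynomial (Fin n) F) (P : (Fin n → F) × F) : Prop :=
  P.2 ^ 2 = eval P.1 f

/-- The image of a point under an embedding of fields. -/
def image {K F : Type} [Field K] [Field F] (φ : K →+* F) (P : (Fin n → K) × K) : (Fin n → F) × F :=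
  (fun j => φ (P.1 j), φ P.2)

end varieties

section cycles

variable {F : Type} [Field F] {n : ℕ}

/-- The zero-cycle `[(x, w)]`. -/
noncomputable def pt (x : Fin n → F) (w : F) : ((Fin n → F) × F) →₀ ℤ := Finsupp.single (x, w) 1

/-- The zero-cycle `[(x, w)] - [(x, -w)]`. -/
noncomputable def dl (x : Fin n → F) (w : F) : ((Fin n → F) × F) →₀ ℤ := pt x w - pt x (-w)

/-- The point `x + t e_i`. -/
def shift (x : Fin n → F) (i : Fin n) (t : F) : Fin n → F :=
  fun a => x a + t * (Pi.single i 1 : Fin n → F) a

/-- The restriction `q(t) = f(x + t e_i)` of a polynomial to the line through `x` in the direction of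
the `i`-th coordinate. -/
noncomputable def line (f : MvPolynomial (Fin n) F) (x : Fin n → F) (i : Fin n) : Polynomial F :=
  aeval (fun k => Polynomial.C (x k) +
    Polynomial.C ((Pi.single i 1 : Fin n → F) k) * Polynomial.X) f

/-- The function `u(t) + v(t) w` on the curve `w² = q(t)` has the zeros `T` (with multiplicities), and
no zero at infinity (as a section of the `M`-th power of the line bundle of degree two): `u` and `v` are
coprime, the function vanishes at the points `T` of the curve, its norm `u² - v² q` has degree `2 M` and
the zeros `t`, `(t, w) ∈ T`. -/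
def Zeros (q u v : Polynomial F) (T : Multiset (F × F)) : Prop :=
  IsCoprime u v ∧ (∀ s ∈ T, s.2 ^ 2 = q.eval s.1 ∧ u.eval s.1 + v.eval s.1 * s.2 = 0) ∧
    (∃ κ : F, κ ≠ 0 ∧ u ^ 2 - v ^ 2 * q =
      Polynomial.C κ * (T.map fun s => Polynomial.X - Polynomial.C s.1).prod) ∧
    ∃ M : ℕ, T.card = 2 * M ∧ u.natDegree ≤ M ∧ v.natDegree + 2 ≤ M

/-- The divisors of the functions `(u + v w) / (u - v w)` on the curves in the direction of a
coordinate. -/
def Fibral (f : MvPolynomial (Fin n) F) : Set (((Fin n → F) × F) →₀ ℤ) :=
  {z | ∃ (x : Fin n → F) (i : Fin n) (u v : Polynomial F) (T : Multiset (F × F)),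
    Zeros (line f x i) u v T ∧ z = (T.map fun s => dl (shift x i s.1) s.2).sum}

/-- The differences of two points on a rational curve, the image of a line under
`t ↦ (c(t), b(t))`. -/
def Curves (f : MvPolynomial (Fin n) F) : Set (((Fin n → F) × F) →₀ ℤ) :=
  {z | ∃ (c : Fin n → Polynomial F) (b : Polynomial F), b ^ 2 = aeval c f ∧
    z = pt (fun k => (c k).eval 0) (b.eval 0) - pt (fun k => (c k).eval 1) (b.eval 1)}

/-- The differences of two fibres of the projection `(x, w) ↦ x`. -/
def Fibres (f : MvPolynomial (Fin n) F) : Set (((Fin n → F) × F) →₀ ℤ) :=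
  {z | ∃ (x x' : Fin n → F) (w w' : F), w ^ 2 = eval x f ∧ w' ^ 2 = eval x' f ∧
    z = pt x w + pt x (-w) - pt x' w' - pt x' (-w')}

/-- A group of zero-cycles which are rationally equivalent to zero on `w² = f(x)`. -/
noncomputable def Rat (f : MvPolynomial (Fin n) F) : AddSubgroup (((Fin n → F) × F) →₀ ℤ) :=
  AddSubgroup.closure (Fibral f ∪ Curves f ∪ Fibres f)

end cycles

section points

variable {K : Type} [Field K] {n : ℕ}

/-- The rational points `Q` such that `[Q] - [ι Q]` is an odd multiple of `[P] - [ι P]`. -/
def OddMultiples (f : MvPolynomial (Fin n) K) (P : (Fin n → K) × K) : Set ((Fin n → K) × K) :=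
  {Q | OnCover f Q ∧ ∃ k : ℤ, dl Q.1 Q.2 - (2 * k + 1) • dl P.1 P.2 ∈ Rat f}

/-- The embedding in the algebraic closure. -/
noncomputable abbrev toC (K : Type) [Field K] : K →+* AlgebraicClosure K :=
  algebraMap K (AlgebraicClosure K)

/-- The rational points `Q` such that a positive multiple of `[Q] - [ι Q]` is rationally equivalent to
zero over the algebraic closure. -/
def Central (f : MvPolynomial (Fin n) K) : Set ((Fin n → K) × K) :=
  {Q | OnCover f Q ∧ ∃ N : ℕ, N ≠ 0 ∧
    N • dl (image (toC K) Q).1 (image (toC K) Q).2 ∈ Rat (map (toC K) f)}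

/-- A positive multiple of the difference of the points is rationally equivalent to zero over the
algebraic closure. -/
def Equivalent (f : MvPolynomial (Fin n) K) (Q Q' : (Fin n → K) × K) : Prop :=
  ∃ N : ℕ, N ≠ 0 ∧ N • (pt (image (toC K) Q).1 (image (toC K) Q).2 -
    pt (image (toC K) Q').1 (image (toC K) Q').2) ∈ Rat (map (toC K) f)

variable {ι : Type} {p : ι → ℕ} [∀ i, Fact (p i).Prime]

/-- The points of `R` are dense near `P` in the product of the sets of the `ℚ_[p i]`-points. -/
def Dense (f : MvPolynomial (Fin n) K) (R : Set ((Fin n → K) × K)) (P : (Fin n → K) × K)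
    (σ : ∀ i, K →+* ℚ_[p i]) : Prop :=
  ∃ U ∈ nhds (fun i => image (σ i) P), ∀ S ∈ U, (∀ i, OnCover (map (σ i) f) (S i)) →
    S ∈ closure {S | ∃ Q ∈ R, S = fun i => image (σ i) Q}

/-- The points of `R` are dense near `P` in the product of the set of the real points and of the sets
of the `ℚ_[p i]`-points. -/
def DenseReal (f : MvPolynomial (Fin n) K) (R : Set ((Fin n → K) × K)) (P : (Fin n → K) × K)
    (σ : ∀ i, K →+* ℚ_[p i]) (τ : K →+* ℝ) : Prop :=
  ∃ U ∈ nhds (image τ P, fun i => image (σ i) P), ∀ S ∈ U, OnCover (map τ f) S.1 →
    (∀ i, OnCover (map (σ i) f) (S.2 i)) →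
      S ∈ closure {S | ∃ Q ∈ R, S = (image τ Q, fun i => image (σ i) Q)}

/-- The points of `R` are dense near `P`, for all finite nonempty sets of `p`-adic places of degree one
over different primes, with or without a real place. -/
def DenseNear (f : MvPolynomial (Fin n) K) (R : Set ((Fin n → K) × K)) (P : (Fin n → K) × K) : Prop :=
  ∀ (ι : Type) [Finite ι] [Nonempty ι] (p : ι → ℕ) [∀ v, Fact (p v).Prime],
    Function.Injective p → ∀ σ : ∀ v, K →+* ℚ_[p v],
      Dense f R P σ ∧ ∀ τ : K →+* ℝ, DenseReal f R P σ τ

end points

open Pool.Agent.K6.H54.CY in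
/-- **Rational points in the same class on Calabi–Yau varieties.** -/
theorem result (K : Type) [Field K] [NumberField K] (n : ℕ) (hn : 2 ≤ n)
    (F : MvPolynomial (Fin n × Fin 2) K) (hF : IsForm F) (hs : Smooth F) :
    -- (1) two central points are equivalent
    (∀ e : K, ∀ Q ∈ Central (C e * affine F), ∀ Q' ∈ Central (C e * affine F),
      Equivalent (C e * affine F) Q Q') ∧
    -- (2) the odd multiples of the class of a general point `P` are dense near `P`
    (∃ (T : Set (Fin n → K)) (h : MvPolynomial (Fin n) K), T.Finite ∧ h ≠ 0 ∧
      ∀ e : K, e ≠ 0 → ∀ P : (Fin n → K) × K, OnCover (C e * affine F) P → P.2 ≠ 0 → P.1 ∉ T →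
        eval P.1 h ≠ 0 →
        DenseNear (C e * affine F) (OddMultiples (C e * affine F) P) P ∧
        (P ∈ Central (C e * affine F) →
          OddMultiples (C e * affine F) P ⊆ Central (C e * affine F))) ∧
    -- (3) the points over a tangent line
    (∀ (e : K) (i : Fin n), ∀ P : (Fin n → K) × K, OnCover (C e * affine F) P →
      (∃ y : Fin n → AlgebraicClosure K, (∀ k, k ≠ i → y k = toC K (P.1 k)) ∧
        aeval y (affine F) = 0 ∧ aeval y (pderiv i (affine F)) = 0) →
      P ∈ Central (C e * affine F)) ∧
    -- (4) over finite extensions the central points are dense near a central point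
    ∃ (ε : Fin n → Fin 2) (K' : Type) (_ : Field K') (_ : NumberField K') (φ : K →+* K')
      (P : (Fin n → K') × K'), P.2 ≠ 0 ∧
        ∀ (L : Type) [Field L] [NumberField L] (ψ : K' →+* L),
          image ψ P ∈ Central (map (ψ.comp φ) (chart F ε)) ∧
          DenseNear (map (ψ.comp φ) (chart F ε)) (Central (map (ψ.comp φ) (chart F ε)))
            (image ψ P) := by
  obtain ⟨hd, hsm, -⟩ := Pool.Agent.Q182.TT.CHF.chf K n F hF (fun _ => 0)
  refine ⟨fun e Q hQ Q' hQ' => Pool.Agent.Q35.ZC.ct_pair hQ hQ', ?_, ?_, ?_⟩
  · obtain ⟨h, h0, hh⟩ := ex_general hd (hsm hs)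
    have hh' : ∀ y, eval y h ≠ 0 →
        (∀ i, Pool.Agent.Q35.ZC.GenusOne
          (Pool.Agent.Q35.ZC.line (Pool.Agent.Q35.TT.ch F fun _ => 0) y i)) ∧
        ∀ i j, i ≠ j → Pool.Agent.Q35.ZC.NotSpecial (Pool.Agent.Q35.TT.ch F fun _ => 0) y i j := by
      intro y hy
      have h1 := hh K (RingHom.id K) y (by rwa [MvPolynomial.map_id])
      rwa [MvPolynomial.map_id] at h1
    refine ⟨{z | ∀ i, Pool.Agent.Q35.TT.TorN (Pool.Agent.Q35.TT.ch F fun _ => 0) z i}, h,
      Pool.Agent.Q35.TT.tan2 K n _ hd (hsm hs), h0, fun e he P hP hw hT hPh => ?_⟩
    rw [Set.mem_ofPred_eq] at hT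
    push Not at hT
    exact ⟨near_general hd hh' he hw hP hPh hT,
      fun hPc => Pool.Agent.Q35.ZC.odds_ct Pool.Agent.Q35.ZC.map2 hPc⟩
  · intro e i P hP ⟨y, hy, h6, h7⟩
    exact Pool.Agent.Q35.ZC.tangent_ct Pool.Agent.Q35.ZC.nod2 (f := C e * affine F) (i := i)
      ((degreeOf_C_mul_le _ i e).trans (hd i)) hP
      ⟨y, hy, by rw [map_mul, h6, mul_zero], by rw [pderiv_C_mul, map_mul, h7, mul_zero]⟩
  · exact near_ext (i := ⟨0, by omega⟩) (j := ⟨1, by omega⟩) (by simp) hF hs

end Pool.Agent.Results.MP_a1cc03_ag.CalabiYauDoubleCovers
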