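import Pool.Agent.K6.H18.Cubic.Reduced

/-!
# Injectivity of the higher Abel-Jacobi map over number fields: reduction, instance by instance, to
explicit smooth cubic hypersurfaces

Let `k` be a number field with a fixed embedding into `ℂ`, and `S'` a set which generates the field
`k`, for instance one primitive element, or the empty set if `k = ℚ`.

The hypersurfaces. For polynomials `e_1, …, e_r`, `r > 0`, in `k[x_1, …, x_m]`, each of one of the
forms `x_a - x_b x_c`, `x_a - (x_b + x_c)`, `x_a - 1`, `x_a - s` with `s` in `S'`
(`IsElementary S' e`), let `V(e)` (`Hypersurface e`) be the hypersurface
`∑ u_j e_j(x) = w (1 - w)`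
in the affine space with coordinates `x_i`, `u_j`, `w`. It is smooth of dimension `m + r`, integral,
rational and of degree at most three (`IsRationalHypersurface e`). In `IsElementary ∅ e` the last
form is not allowed, and the coefficients of the equation are `0`, `1`, `-1`.

The theories. `BM k`: Borel-Moore homology theories on the affine schemes of finite type over `k`,
with push-forward along closed immersions, pull-back along smooth morphisms, localization sequences,
homotopy invariance, and the usual compatibilities. `M` and `T` are such theories and `c : M → T` is
a morphism. The case in point:
* `M.H B a b` is Bloch's higher Chow group `CH_b(Spec B, a)` with rational coefficients;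
* `T.H B a b` is the absolute Hodge homology (Beilinson, Jannsen) of the base change of `Spec B` to
  `ℂ` in degree `a + 2b` with coefficients `ℚ(b)`; for `Spec B` smooth of pure dimension `d` this is
  the absolute Hodge cohomology in degree `2(d-b) - a` with coefficients `ℚ(d-b)`;
* `c` is the cycle class map (base change from `k` to `ℂ` followed by the regulator).
The required properties are known (Bloch; Beilinson, Jannsen). For a smooth variety `X` of pure
dimension `d` and `i = d - b`, the absolute Hodge cohomology in degree `2i` with coefficients `ℚ(i)`
is an extension of the group of Hodge classes in `H^{2i}(X, ℚ(i))` by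
`Ext^1(ℚ, H^{2i-1}(X, ℚ(i)))`, which for projective `X` is `J^{2i-1}(X) ⊗ ℚ`; the restriction of `c`
to the homologically trivial cycles is the Abel-Jacobi map `AJ^i`. So `Inj c B b`, the injectivity
of `c` on the cycles of dimension `b` (`a = 0`), is the injectivity of `AJ^i`. For a point this is
obvious. For a variety `X` which need not be affine the same statement is `TX X b`; the trick
of Jouanolou relates it to the affine case (`hTX`, `𝒱` the class of all quasi-projective varieties,
which contains the smooth projective varieties of the problem).

Theorem. For every variety `X` in `𝒱`, for instance every smooth projective variety over `k`, there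
are a hypersurface `V(e)` with constants in `S'` and a number `n` with: for all `b`, the injectivity
for `X` and cycles of dimension `b` is equivalent to the injectivity for `V(e)` and cycles of
dimension `b + n`. Moreover there is one sequence `V_1, V_2, …` of hypersurfaces `V(e)` with
coefficients `0`, `1`, `-1` (`v N` is the system `e` of `V_N`) such that for every `X` in `𝒱` and all
but finitely many `N` there is a number `n` such that, for all `b`, the injectivity for `V_N` and
cycles of dimension `b + n` implies the injectivity for `X` and cycles of dimension `b`. So every
instance of the conjecture of Beilinson and Bloch over the number field `k` is equivalent to the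
injectivity of one Abel-Jacobi map of one explicit smooth rational affine cubic hypersurface, and all
of them follow from the injectivity for infinitely many members of one explicit sequence of such
hypersurfaces with coefficients `0`, `1`, `-1`.

Steps of the proof. (1) For every ring `B` and `e_1, …, e_r` in `B`, the scheme
`Spec B[u_1, …, u_r, w] / (∑ u_j e_j - w (1 - w))` is smooth over `Spec B` of relative dimension `r`.
If some `e_j` is invertible, it is an affine space over `Spec B`; if all `e_j` vanish, it is the
disjoint union of two affine spaces. (2) By induction on the number of nonzero `e_j`, with a diagram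
chase in the localization sequences, its Borel-Moore homology is the direct sum of that of `Spec B`,
by pull-back, and that of `Spec B/(e_1, …, e_r)`, by pull-back to affine space and push-forward.
(3) Every algebra of finite type over `k` is `k[x_1, …, x_m]/(e_1, …, e_r)` with `e_j` as above, with
constants in `S'`. (4) If every relation `x_a - s` is replaced by the minimal polynomial of `s` over
`ℚ`, the algebra becomes a direct factor of the new one, which has a presentation without constants;
the homology of a disjoint union is the direct sum. (5) `V_N` belongs to the disjoint union of the
first `N` hypersurfaces of an enumeration of all `V(e)`. All inclusions and projections commute with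
the cycle map.
-/

set_option autoImplicit false

open AlgebraicGeometry CategoryTheory MvPolynomial

namespace Pool.Agent.Results.MP_a1cc03_ag.CubicHypersurfaces

open Pool.Agent.K6.H18.Cubic Pool.Agent.K6.H18.Cubic.Alg

/-- The homomorphism `c` is injective on the group of cycles of dimension `b` of `Spec B`. -/
def Inj {k : Type} [CommRing k] {M T : BM k} (c : M.Hom T) (B : Alg k) (b : ℤ) : Prop :=
  Function.Injective (c.mapf (B := B) (a := 0) (b := b))

/-- Every instance of the conjecture of Beilinson and Bloch over a number field is equivalent to an
instance for an explicit smooth rational cubic hypersurface, and follows from an instance for each of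
almost all members of one sequence of cubic hypersurfaces with coefficients `0`, `1`, `-1`. -/
theorem result {k : Type} [Field k] [NumberField k] (S' : Set k)
    (hS' : Subfield.closure S' = ⊤) :
    (∀ (m r : ℕ) (e : Fin r → MvPolynomial (Fin m) k), IsElementary Set.univ e →
      IsRationalHypersurface e) ∧
    ∃ v : ℕ → EqnSystem k, (∀ N, IsElementary ∅ (v N).eqs) ∧
      ∀ (M T : BM k) (c : M.Hom T) (𝒱 : Over (Spec (CommRingCat.of k)) → Prop)
        (TX : Over (Spec (CommRingCat.of k)) → ℤ → Prop), IsExtensionOf (Inj c) 𝒱 TX →
        ∀ X, 𝒱 X →
          (∃ N₀ : ℕ, ∀ N ≥ N₀, ∃ n : ℕ, ∀ b, TX (member v N) (b + n) → TX X b) ∧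
          ((∀ b, Inj c (base k) b) → ∃ (m r n : ℕ) (e : Fin r → MvPolynomial (Fin m) k),
            IsElementary S' e ∧ ∀ b, TX X b ↔ TX (specOf (Hypersurface e)) (b + n)) := by
  have hsep := isSeparable_of_numberField k ∅
  obtain ⟨v, hv, h⟩ := exists_isReduced (k := k) (S := ∅) Set.countable_empty
  refine ⟨fun _ _ e he => isRationalHypersurface e he, v, hv, fun M T c 𝒱 TX hTX X hX =>
    ⟨(h _ (inherited_injective c) 𝒱 TX hTX).instances X hX, fun hk => ?_⟩⟩
  have hP : SplitsP (fun (B : Type) [CommRing B] [Algebra k B] b => Inj c ⟨B⟩ b) :=
    (isAdditive_injective (G := Empty)).splitsP_bundled c (fun g => g.elim) 0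
  obtain ⟨m, r, n, e, he, -, hb⟩ := exists_hypersurface hS' hP.toSplits hk hTX X hX
  exact ⟨m, r, n, e, he, hb⟩

end Pool.Agent.Results.MP_a1cc03_ag.CubicHypersurfaces
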