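import Pool.Agent.K6.H18.AHL.AbelJacobi

/-!
# Injectivity of the Abel-Jacobi maps and Beilinson's arithmetic hard Lefschetz conjecture

Let `X` be a smooth projective variety of dimension `n` over a number field which satisfies the
standard conjecture of Lefschetz type, with an ample line bundle: for example an abelian variety, a
surface, a complete intersection, or a product of such varieties. Let `W` be the direct sum of the
spaces `Cyc m` of homologically trivial cycles of codimension `m` on `X` with rational coefficients,
`J` the direct sum of the intermediate Jacobians `Jac m` in degree `2 * m - 1`, tensored with `ℚ`,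
`AJ` the Abel-Jacobi map, and `L`, `LJ` the Lefschetz operators. Then `LefschetzType` holds, by the
hard Lefschetz theorem and the standard conjecture, which provides the algebraic inverse of the
power of the Lefschetz operator from degree `2 * m - 1` to degree `2 * n - 2 * m + 1`.

Theorem. The Abel-Jacobi maps of `X` are injective in all codimensions if and only if
* they are injective in the codimensions `m ≤ (n + 1) / 2`, and
* the powers `L ^ (n + 1 - 2 * m)` of the Lefschetz operator map the homologically trivial cycles of
  codimension `m` onto those of codimension `n + 1 - m`, for `m ≤ (n + 1) / 2`.

The second condition is the surjectivity part of Beilinson's arithmetic hard Lefschetz conjecture.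
The injectivity part follows from the first condition. So the question implies Beilinson's conjecture
for these varieties, and in the upper half of the codimensions it is equivalent to it, given the
lower half.

Steps of the proof. (⇒) For a cycle `y` in the upper half take its image `x` under the algebraic
inverse; then `y` and `L ^ k x` have the same Abel-Jacobi image. (⇐) A cycle `L ^ k x` with vanishing
Abel-Jacobi image comes from a cycle `x` in the lower half whose Abel-Jacobi image vanishes, since
`LJ ^ k` is injective there.
-/

set_option autoImplicit false

namespace Pool.Agent.Results.MP_a1cc03_ag.LowerHalfAndLefschetz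

open Pool.Agent.K6.H18.AHL

/-- For varieties with the standard conjecture of Lefschetz type the Abel-Jacobi maps are injective
in all codimensions if and only if they are in the lower half and the homologically trivial cycles
in the upper half come from the lower half by the Lefschetz operator. -/
theorem result {W J : Type*} [AddCommGroup W] [Module ℚ W] [AddCommGroup J] [Module ℚ J] (n : ℕ)
    (Cyc : ℤ → Submodule ℚ W) (Jac : ℤ → Submodule ℚ J) (L : W →ₗ[ℚ] W) (LJ : J →ₗ[ℚ] J)
    (AJ : W →ₗ[ℚ] J) (h : LefschetzType n Cyc Jac L LJ AJ) :
    (∀ i, InjectiveAt Cyc AJ i) ↔
      (∀ i : ℤ, 2 * i ≤ n + 1 → InjectiveAt Cyc AJ i) ∧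
      ∀ (i : ℤ) (k : ℕ), (k : ℤ) = n + 1 - 2 * i →
        ∀ y ∈ Cyc (i + k), ∃ x ∈ Cyc i, (L ^ k) x = y :=
  injectiveAt_iff h

end Pool.Agent.Results.MP_a1cc03_ag.LowerHalfAndLefschetz
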