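import Pool.Agent.K6.H7.AJ.Law

/-!
# The size of the kernels of the Abel-Jacobi maps on the products `Y × X ^ n`

Let `k` be a number field embedded in the complex numbers, `Y` ANY nonempty smooth projective variety
over `k` and `X` a smooth projective variety over `k` which satisfies the sign conjecture `C⁺` (known if
`X` is a product of curves, surfaces, abelian varieties, complete intersections, for example an
elliptic curve). Let `b` be the total Betti number of `X`, let `ρ (n)` be the rank of the group of
the cycles of all codimensions on `X ^ n` modulo numerical equivalence, and let `κ (n)` be the dimension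
(a number or infinity) of the kernel of the Abel-Jacobi map on the homologically trivial cycles of all
codimensions on `Y × X ^ n`, with rational coefficients. By the conjecture of Beilinson and Bloch
`κ (n) = 0`.

Theorem. The quotient `κ (n) / ρ (n)` converges, for `n → ∞`, to an element `N` of `{0, 1, 2, …, ∞}`.

* `N = 0` if and only if the Abel-Jacobi maps of `Y × X ^ n` are injective in all codimensions, for all
  `n ≥ 0` (in particular for `Y` itself).
* If `κ (n) ≤ c ρ (n)` for infinitely many `n`, with a natural number `c`, then `N ≤ c`.
* If `2 κ (n) < ρ (n)` for ONE number `n ≥ 128 (m + 1) ^ 2 b ^ (2 m + 6)` then the Abel-Jacobi maps of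
  `Y × X ^ m` are injective in all codimensions.
* If `N = k` is finite then all these kernels are finite-dimensional, each composition of `k + 2`
  homologically trivial correspondences between powers of `X` is zero (modulo torsion), so that all
  products of `k + 2` homologically trivial cycles on powers of `X` vanish, and the Chow motive of `X`
  is finite-dimensional in the sense of Kimura.

The setting. `C` is the pseudo-abelian hull of the category of the smooth projective varieties over `k`
with the groups `CH^*(X × Y)_ℚ` (all codimensions) as morphisms, a rigid symmetric monoidal category;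
`𝟙_ C ⟶ Z` is `CH^*(Z)_ℚ`; `T = h(X)` is self-dual and `tp T n = h(X ^ n)`; `R` is singular cohomology
with coefficients extended to an algebraically closed field. `D(Z)` is the direct sum over `i` of the
Deligne cohomology groups of degree `2 i` and twist `i` of `Z(ℂ)` with rational coefficients and `e` is
the element `1` of `D` of the point, so that `D.map α` applied to `e` is the Deligne class of the cycle
`α`. The Abel-Jacobi map is its restriction to the cycles with trivial singular class. The two properties
in `IsDeligne` are known: the Deligne class determines the singular class; and the kernel of the map from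
Deligne to singular cohomology is an ideal of square zero (so that the action of a homologically
trivial correspondence on a homologically trivial cycle has trivial Deligne class). The theorem
holds for every subfield `k` of the complex numbers.

Idea of the proof. The kernels on `Y × Z` form an additive functor of the motive `Z`. By the law of the
dimensions of the values of such functors on the powers of `X` (starting library, files N64/AF: helper64
and many others) the limit exists, is zero only if the functor vanishes on the powers, and if it is a
natural number `k` then the compositions of `k` numerically trivial correspondences act as zero on the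
kernels. But compositions of two homologically trivial correspondences map all cycles to the kernels.
-/

set_option autoImplicit false

open CategoryTheory MonoidalCategory Module Filter Topology
open Pool.Agent.Y112.SR Pool.Agent.Y112.KD Pool.Agent.N64.AF Pool.Agent.K6.H7.AJ
open scoped ENNReal

namespace Pool.Agent.Results.MP_a1cc03_ag.SizeOfKernels

universe v u w x

/-- The size of the kernels of the Abel-Jacobi maps. -/
theorem result {C : Type u} [Category.{v} C] [Preadditive C] [MonoidalCategory C]
    [MonoidalPreadditive C] [SymmetricCategory C] [RightRigidCategory C]
    [Linear ℚ C] [MonoidalLinear ℚ C] [IsIdempotentComplete C]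
    {K : Type w} [Field K] [IsAlgClosed K] [Algebra ℚ K] (R : SuperRealisation C K)
    (D : C ⥤ ModuleCat.{x} ℚ) [D.Additive] [D.Linear ℚ] (e : D.obj (𝟙_ C)) (hD : IsDeligne R D e)
    (T : C) [ExactPairing T T] (h : IsPow ℚ R T) (Y : C)
    (hY : ∃ (i : 𝟙_ C ⟶ Y) (r : Y ⟶ 𝟙_ C), i ≫ r = 𝟙 (𝟙_ C)) :
    ∃ N : ℕ∞,
      RatioTo ℚ T (fun n => dimE ℚ (clKer D e (Y ⊗ tp T n))) N ∧
      (N = 0 ↔ ∀ n, AJInjective R D e (Y ⊗ tp T n)) ∧
      (∀ c : ℕ, (∃ᶠ n in atTop, dimE ℚ (clKer D e (Y ⊗ tp T n)) ≤ c * numRank ℚ (tp T n)) →
        N ≤ c) ∧
      (∀ m n : ℕ, 128 * (m + 1) ^ 2 * bt R T ^ (2 * m + 6) ≤ n →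
        2 * dimE ℚ (clKer D e (Y ⊗ tp T n)) < numRank ℚ (tp T n) →
          AJInjective R D e (Y ⊗ tp T m)) ∧
      ∀ k : ℕ, N = k → (∀ n, Module.Finite ℚ (clKer D e (Y ⊗ tp T n))) ∧
        (∀ (a b : ℕ) (f : tp T a ⟶ tp T b), HomPow R T (k + 2) f → f = 0) ∧
        Pool.Agent.R905.IsKimuraFinite T :=
  aj_law D e hD h Y hY

end Pool.Agent.Results.MP_a1cc03_ag.SizeOfKernels
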